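import Pool.Agent.H739SJ.Main

/-!
# Varieties of solvable Jordan algebras that are not finitely based

Over every field of odd characteristic there is a variety of Jordan algebras,
solvable of index three, that is not defined by any finite set of identities.
-/

namespace Pool.Agent.Results.MP_a43909_al.SolvableJordanNotFB

open Pool.Agent.H739SJ

universe u

theorem result (p : ℕ) [Fact p.Prime] (hp : p ≠ 2) (F : Type u) [Field F] [CharP F p] :
    ∃ S : Set (FreeNonUnitalNonAssocAlgebra F ℕ),
      (∀ (B : Type u) [NonUnitalNonAssocRing B] [Module F B] [IsScalarTower F B B]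
        [SMulCommClass F B B], InVariety F S B →
          IsJordanAlgebra B ∧ derivedSeries F B 3 = ⊥) ∧
      ∀ T : Set (FreeNonUnitalNonAssocAlgebra F ℕ), T.Finite →
        ¬ ∀ (B : Type u) [NonUnitalNonAssocRing B] [Module F B] [IsScalarTower F B B]
          [SMulCommClass F B B], InVariety F S B ↔ InVariety F T B :=
  main F p hp

end Pool.Agent.Results.MP_a43909_al.SolvableJordanNotFB
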